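import Pool.Agent.MWGR.StmtsF

/-! Row DAL of squad MWGR: the bit `D 0` gives all edges. -/

namespace Pool.Agent.MWGR.H30

open Pool.Agent.Helper14_MV Pool.Agent.Helper2_MV Pool.Agent.MVO Pool.Agent.MWL Pool.Agent.MWS
  Pool.Agent.MWH

lemma fm_rep (g : ℕ → List ℕ) (m c : ℕ) (l : List ℕ) (h : g c = l) :
    (List.replicate m c).flatMap g = (List.replicate m l).flatten := by
  induction m with
  | zero => rfl
  | succ m ih => rw [List.replicate_succ, List.flatMap_cons, ih, h, List.replicate_succ]; rfl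

lemma flat_rep (m s x : ℕ) :
    (List.replicate m (List.replicate s x)).flatten = List.replicate (s * m) x := by
  induction m with
  | zero => rfl
  | succ m ih =>
    rw [List.replicate_succ, List.flatten_cons, ih, ← List.replicate_add]
    congr 1
    ring

lemma flat_one (m x : ℕ) : (List.replicate m [x]).flatten = List.replicate m x := by
  have := flat_rep m 1 x
  simpa using this

section
variable {θ : FIC} {n : ℕ}

lemma ctx {u v : List ℕ} (h : RR θ u v) (p q : List ℕ) : RR θ (p ++ (u ++ q)) (p ++ (v ++ q)) :=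
  (RR.refl p).append (h.append (RR.refl q))

/-- the bit -/
lemma bit0 (h : Has n (FC.ofFIC θ) (Bit.D 0)) :
    RR θ [0, 2, 0, 0] (List.replicate (2 * n + 1) 0 ++ [2, 0, 0]) := by
  have h1 : RR θ (mw 1 (Bit.D 0).a) (mw 1 (ad n (Bit.D 0).a 0)) := h
  have e1 : mw 1 (Bit.D 0).a = [0, 2, 0, 0] := rfl
  have e2 : mw 1 (ad n (Bit.D 0).a 0) = List.replicate (2 * n + 1) 0 ++ [2, 0, 0] := by
    have a0 : ad n (Bit.D 0).a 0 0 = 2 * n + 1 := by
      simp [ad, Bit.a]; omega
    have a1 : ad n (Bit.D 0).a 0 1 = 2 := by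
      simp [ad, Bit.a]
    show List.replicate (ad n (Bit.D 0).a 0 0) 0 ++ 2 :: List.replicate (ad n (Bit.D 0).a 0 1) 0 = _
    rw [a0, a1]
    rfl
  rw [e1, e2] at h1
  exact h1

/-- (i) -/
lemma ins (hx : ExgStmt) (hB : BG n (RR θ)) (hD : Has n (FC.ofFIC θ) (Bit.D 0))
    (p w q : List ℕ) (y : ℕ) :
    RR θ (p ++ y :: (w ++ y :: q)) (p ++ (List.replicate (2 * n + 1) y ++ (w ++ y :: q))) := by
  have hn := hB.pos
  have h0 := (bit0 hD).sub (fun i => if i = 0 then [y] else w)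
  have e1 : ([0, 2, 0, 0] : List ℕ).flatMap (fun i => if i = 0 then [y] else w) =
      y :: (w ++ [y, y]) := by simp
  have e2 : (List.replicate (2 * n + 1) 0 ++ [2, 0, 0]).flatMap
      (fun i => if i = 0 then [y] else w) = List.replicate (2 * n + 1) y ++ (w ++ [y, y]) := by
    rw [List.flatMap_append, fm_rep _ _ 0 [y] (by simp), flat_one]
    simp
  rw [e1, e2] at h0
  have h1 := ctx h0 p (List.replicate (n - 1) y ++ q)
  have em : (1 : ℕ) ≡ n + 1 [MOD n] := by
    unfold Nat.ModEq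
    rw [Nat.add_mod_left]
  have g1 := (hx n θ hB (p ++ y :: w) q y 1 (n + 1) em).1 (by simp) (le_refl _) (by omega)
  have g2 := (hx n θ hB (p ++ (List.replicate (2 * n + 1) y ++ w)) q y 1 (n + 1) em).1
    (by simp) (le_refl _) (by omega)
  have er : List.replicate (n + 1) y = [y, y] ++ List.replicate (n - 1) y := by
    have : n + 1 = 2 + (n - 1) := by omega
    rw [this, List.replicate_add]
    rfl
  rw [er] at g1 g2
  have f1 : RR θ (p ++ y :: (w ++ y :: q)) (p ++ (y :: (w ++ [y, y]) ++ (List.replicate (n - 1) y ++ q))) := by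
    have a1 : (p ++ y :: w) ++ (List.replicate 1 y ++ q) = p ++ y :: (w ++ y :: q) := by simp
    have a2 : (p ++ y :: w) ++ ([y, y] ++ List.replicate (n - 1) y ++ q) =
        p ++ (y :: (w ++ [y, y]) ++ (List.replicate (n - 1) y ++ q)) := by simp
    rw [a1, a2] at g1
    exact g1
  have f2 : RR θ (p ++ (List.replicate (2 * n + 1) y ++ (w ++ y :: q)))
      (p ++ (List.replicate (2 * n + 1) y ++ (w ++ [y, y]) ++ (List.replicate (n - 1) y ++ q))) := by
    have a1 : (p ++ (List.replicate (2 * n + 1) y ++ w)) ++ (List.replicate 1 y ++ q) =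
        p ++ (List.replicate (2 * n + 1) y ++ (w ++ y :: q)) := by simp
    have a2 : (p ++ (List.replicate (2 * n + 1) y ++ w)) ++
        ([y, y] ++ List.replicate (n - 1) y ++ q) =
        p ++ (List.replicate (2 * n + 1) y ++ (w ++ [y, y]) ++ (List.replicate (n - 1) y ++ q)) := by
      simp
    rw [a1, a2] at g2
    exact g2
  exact θ.trans f1 (θ.trans h1 f2.symm)

/-- (ii) -/
lemma cmm (hx : ExgStmt) (hB : BG n (RR θ)) (p q : List ℕ) (x y s t : ℕ) (hs : 2 ≤ s)
    (ht : 2 ≤ t) :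
    RR θ (p ++ (List.replicate s x ++ (List.replicate t y ++ q)))
      (p ++ (List.replicate t y ++ (List.replicate s x ++ q))) := by
  have h0 : RR θ (List.replicate (n + 1) 0 ++ List.replicate (n + 1) 1)
    (List.replicate (n + 1) 1 ++ List.replicate (n + 1) 0) := hB.rn
  have h1 := h0.sub (fun i => if i = 0 then List.replicate s x else List.replicate t y)
  rw [List.flatMap_append, List.flatMap_append, fm_rep _ _ 0 (List.replicate s x) (by simp),
    fm_rep _ _ 1 (List.replicate t y) (by simp), flat_rep, flat_rep] at h1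
  have h2 := ctx h1 p q
  rw [List.append_assoc, List.append_assoc] at h2
  have es : s ≡ s * (n + 1) [MOD n] := by
    unfold Nat.ModEq
    rw [Nat.mul_add, Nat.mul_one, Nat.mul_add_mod_self_right]
  have et : t ≡ t * (n + 1) [MOD n] := by
    unfold Nat.ModEq
    rw [Nat.mul_add, Nat.mul_one, Nat.mul_add_mod_self_right]
  have hs' : 2 ≤ s * (n + 1) := by nlinarith
  have ht' : 2 ≤ t * (n + 1) := by nlinarith
  have g1 := (hx n θ hB p (List.replicate t y ++ q) x s (s * (n + 1)) es).2.1 hs hs'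
  have g2 := (hx n θ hB (p ++ List.replicate (s * (n + 1)) x) q y t (t * (n + 1)) et).2.1 ht ht'
  have g3 := (hx n θ hB p (List.replicate s x ++ q) y t (t * (n + 1)) et).2.1 ht ht'
  have g4 := (hx n θ hB (p ++ List.replicate (t * (n + 1)) y) q x s (s * (n + 1)) es).2.1 hs hs'
  rw [List.append_assoc, List.append_assoc] at g2 g4
  exact θ.trans g1 (θ.trans g2 (θ.trans h2 (θ.trans g4.symm g3.symm)))

end

theorem dal (hx : ExgStmt) : DalStmt := by
  intro n θ hB hD
  have hn := hB.pos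
  have I := fun p w q y => ins hx hB hD p w q y
  have C := fun p q x y s t hs ht => cmm hx hB p q x y s t hs ht
  have m1 : ∀ k : ℕ, k ≡ k + n [MOD n] := by
    intro k
    unfold Nat.ModEq
    rw [Nat.add_mod_right]
  have m2 : ∀ k : ℕ, k ≡ k + 2 * n [MOD n] := by
    intro k
    have := m1 (k + n)
    have e : k + n + n = k + 2 * n := by ring
    rw [e] at this
    exact (m1 k).trans this
  refine ⟨?_, ?_, ?_, ?_⟩
  · -- Al0
    show RR θ [0, 0, 1, 2, 1] ([0, 0, 1] ++ (X n ++ [2, 1]))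
    have s1 : RR θ [0, 0, 1, 2, 1] ([0, 0] ++ (Y (2 * n + 1) ++ [2, 1])) := I [0, 0] [2] [] 1
    have s2 : RR θ ([0, 0] ++ (Y (2 * n + 1) ++ [2, 1]))
        ([0, 0] ++ (X (2 * n) ++ (Y (2 * n + 1) ++ [2, 1]))) := by
      have h := (hx n θ hB [] (Y (2 * n + 1) ++ [2, 1]) 0 2 (2 + 2 * n) (m2 2)).2.1 (le_refl _)
        (by omega)
      rw [List.replicate_add] at h
      simpa using h
    have s3 := C [0, 0] [2, 1] 0 1 (2 * n) (2 * n + 1) (by omega) (by omega)
    have s4 : RR θ ([0, 0] ++ (Y (2 * n + 1) ++ (X (2 * n) ++ [2, 1])))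
        ([0, 0, 1] ++ (X (2 * n) ++ [2, 1])) := by
      have h := (I [0, 0] (X (2 * n) ++ [2]) [] 1).symm
      simpa using h
    have s5 : RR θ ([0, 0, 1] ++ (X (2 * n) ++ [2, 1])) ([0, 0, 1] ++ (X n ++ [2, 1])) := by
      have e : 2 * n ≡ n [MOD n] := by
        have := m1 n
        have e : n + n = 2 * n := by ring
        rw [e] at this
        exact this.symm
      exact (hx n θ hB [0, 0, 1] [2, 1] 0 (2 * n) n e).1 (by simp) (by omega) hn
    exact θ.trans s1 (θ.trans s2 (θ.trans s3 (θ.trans s4 s5)))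
  · -- Ze
    show RR θ [1, 0, 0, 2, 1] (X n ++ [1, 0, 0, 2, 1])
    have s1 : RR θ [1, 0, 0, 2, 1] (Y (2 * n + 1) ++ [0, 0, 2, 1]) := I [] [0, 0, 2] [] 1
    have s2 : RR θ (Y (2 * n + 1) ++ [0, 0, 2, 1]) ([0, 0] ++ (Y (2 * n + 1) ++ [2, 1])) :=
      C [] [2, 1] 1 0 (2 * n + 1) 2 (by omega) (le_refl _)
    have s3 : RR θ ([0, 0] ++ (Y (2 * n + 1) ++ [2, 1]))
        (X (2 * n) ++ ([0, 0] ++ (Y (2 * n + 1) ++ [2, 1]))) := by
      have h := (hx n θ hB [] (Y (2 * n + 1) ++ [2, 1]) 0 2 (2 + 2 * n) (m2 2)).2.1 (le_refl _)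
        (by omega)
      rw [Nat.add_comm 2 (2 * n), List.replicate_add] at h
      simpa using h
    have s4 : RR θ (X (2 * n) ++ ([0, 0] ++ (Y (2 * n + 1) ++ [2, 1])))
        (X (2 * n) ++ (Y (2 * n + 1) ++ ([0, 0] ++ [2, 1]))) :=
      C (X (2 * n)) [2, 1] 0 1 2 (2 * n + 1) (le_refl _) (by omega)
    have s5 : RR θ (X (2 * n) ++ (Y (2 * n + 1) ++ ([0, 0] ++ [2, 1])))
        (X (2 * n) ++ [1, 0, 0, 2, 1]) := by
      have h := (I (X (2 * n)) [0, 0, 2] [] 1).symm
      simpa using h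
    have s6 : RR θ (X (2 * n) ++ [1, 0, 0, 2, 1]) (X n ++ [1, 0, 0, 2, 1]) := by
      have e : 2 * n ≡ n [MOD n] := by
        have := m1 n
        have e : n + n = 2 * n := by ring
        rw [e] at this
        exact this.symm
      refine (hx n θ hB [] [1, 0, 0, 2, 1] 0 (2 * n) n e).2.2.2 [1] [0, 2, 1] rfl (by omega) hn ?_
      intro c hc _
      simp only [List.mem_singleton] at hc
      subst hc
      simp
    exact θ.trans s1 (θ.trans s2 (θ.trans s3 (θ.trans s4 (θ.trans s5 s6))))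
  · -- Ka
    show RR θ [0, 1, 2, 0, 3, 1] [1, 0, 2, 0, 3, 1]
    have s1 : RR θ [0, 1, 2, 0, 3, 1] (X (2 * n + 1) ++ [1, 2, 0, 3, 1]) := I [] [1, 2] [3, 1] 0
    have s2 : RR θ (X (2 * n + 1) ++ [1, 2, 0, 3, 1])
        (X (2 * n + 1) ++ (Y (2 * n + 1) ++ [2, 0, 3, 1])) := I (X (2 * n + 1)) [2, 0, 3] [] 1
    have s3 : RR θ (X (2 * n + 1) ++ (Y (2 * n + 1) ++ [2, 0, 3, 1]))
        (Y (2 * n + 1) ++ (X (2 * n + 1) ++ [2, 0, 3, 1])) :=
      C [] [2, 0, 3, 1] 0 1 (2 * n + 1) (2 * n + 1) (by omega) (by omega)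
    have s4 : RR θ (Y (2 * n + 1) ++ (X (2 * n + 1) ++ [2, 0, 3, 1]))
        (Y (2 * n + 1) ++ [0, 2, 0, 3, 1]) := (I (Y (2 * n + 1)) [2] [3, 1] 0).symm
    have s5 : RR θ (Y (2 * n + 1) ++ [0, 2, 0, 3, 1]) [1, 0, 2, 0, 3, 1] :=
      (I [] [0, 2, 0, 3] [] 1).symm
    exact θ.trans s1 (θ.trans s2 (θ.trans s3 (θ.trans s4 s5)))
  · -- Dm n 1
    show RR θ (X (n + 1) ++ 1 :: (X n ++ [2, 1])) (X n ++ 1 :: (X (n + 1) ++ [2, 1]))
    have s1 : RR θ (X (n + 1) ++ 1 :: (X n ++ [2, 1]))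
        (X (n + 1) ++ (Y (2 * n + 1) ++ (X n ++ [2, 1]))) := by
      have h := I (X (n + 1)) (X n ++ [2]) [] 1
      simpa using h
    have s2 : RR θ (X (n + 1) ++ (Y (2 * n + 1) ++ (X n ++ [2, 1])))
        (X (n + 1) ++ (Y (2 * n + 1) ++ (X (n + n) ++ [2, 1]))) := by
      have h := (hx n θ hB (X (n + 1) ++ Y (2 * n + 1)) [2, 1] 0 n (n + n) (m1 n)).1
        (by simp) hn (by omega)
      simpa only [List.append_assoc] using h
    have s3 := (C (X (n + 1)) [2, 1] 0 1 (n + n) (2 * n + 1) (by omega) (by omega)).symm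
    have t1 : RR θ (X n ++ 1 :: (X (n + 1) ++ [2, 1]))
        (X n ++ (Y (2 * n + 1) ++ (X (n + 1) ++ [2, 1]))) := by
      have h := I (X n) (X (n + 1) ++ [2]) [] 1
      simpa using h
    have t2 := (C (X n) [2, 1] 0 1 (n + 1) (2 * n + 1) (by omega) (by omega)).symm
    have t3 : RR θ (X n ++ (X (n + 1) ++ (Y (2 * n + 1) ++ [2, 1])))
        (X (n + 1) ++ (X (n + n) ++ (Y (2 * n + 1) ++ [2, 1]))) := by
      have e : n + (n + 1) ≡ (n + 1) + (n + n) [MOD n] := by
        have := m1 (n + (n + 1))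
        have e : n + (n + 1) + n = (n + 1) + (n + n) := by ring
        rw [e] at this
        exact this
      have h := (hx n θ hB [] (Y (2 * n + 1) ++ [2, 1]) 0 _ _ e).2.1 (by omega) (by omega)
      rw [List.replicate_add, List.replicate_add (n + 1)] at h
      simpa only [List.append_assoc, List.nil_append] using h
    exact θ.trans s1 (θ.trans s2 (θ.trans s3 (θ.trans t3.symm (θ.trans t2.symm t1.symm))))

end Pool.Agent.MWGR.H30

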